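import Pool.Agent.Helper31.RG.Goals

/-!
# Packet SU of MP_c578c8_lc, project RG: the strongly unique solution is a local system
-/

namespace Pool.Agent.Helper56.RG.PkSU

open Pool.Agent.Helper31.RG

variable {T : Type} {k : ℕ}

/-! ### Lists -/

theorem flat_nil {n : ℕ} (f : Fin n → List T) (h : ∀ i, f i = []) : (List.ofFn f).flatten = [] := by
  rw [List.flatten_eq_nil_iff]
  intro l hl
  rw [List.mem_ofFn] at hl
  obtain ⟨i, rfl⟩ := hl
  exact h i

theorem flat1 {n : ℕ} (f : Fin (n + 1) → List T) (h : ∀ i, i ≠ 0 → f i = []) :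
    (List.ofFn f).flatten = f 0 := by
  rw [List.ofFn_succ, List.flatten_cons, flat_nil _ fun i => h _ (Fin.succ_ne_zero i),
    List.append_nil]

theorem flat2 {n : ℕ} (f : Fin (n + 2) → List T) (h : ∀ i, i ≠ 0 → i ≠ 1 → f i = []) :
    (List.ofFn f).flatten = f 0 ++ f 1 := by
  rw [List.ofFn_succ, List.flatten_cons, flat1 (fun i : Fin (n + 1) => f i.succ)]
  · rfl
  · intro i hi
    refine h _ (Fin.succ_ne_zero i) fun h1 => hi ?_
    have h2 : i.succ = (0 : Fin (n + 1)).succ := h1
    exact Fin.succ_injective _ h2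

theorem arr_inj {ρ : List (Option (Fin k))} : (ρ.filterMap id).Nodup → ∀ {i j : ℕ} {l : Fin k},
    ρ[i]? = some (some l) → ρ[j]? = some (some l) → i = j := by
  induction ρ with
  | nil =>
    intro _ i j l hi _
    simp at hi
  | cons o ρ ih =>
    intro h i j l hi hj
    have key : ∀ {m : ℕ}, o = some l → ρ[m]? = some (some l) → False := by
      intro m ho hm
      subst ho
      rw [List.filterMap_cons_some (f := id) (a := some l) (b := l) rfl, List.nodup_cons] at h
      apply h.1
      rw [List.mem_filterMap]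
      exact ⟨some l, List.mem_of_getElem? hm, rfl⟩
    have hn : (ρ.filterMap id).Nodup := by
      refine h.sublist ?_
      exact (List.sublist_cons_self o ρ).filterMap id
    cases i with
    | zero =>
      cases j with
      | zero => rfl
      | succ j =>
        rw [List.getElem?_cons_zero, Option.some_inj] at hi
        rw [List.getElem?_cons_succ] at hj
        exact (key hi hj).elim
    | succ i =>
      cases j with
      | zero =>
        rw [List.getElem?_cons_zero, Option.some_inj] at hj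
        rw [List.getElem?_cons_succ] at hi
        exact (key hj hi).elim
      | succ j =>
        rw [List.getElem?_cons_succ] at hi hj
        rw [ih hn hi hj]

theorem take_pad {y : List (List T)} (h : y.length ≤ k) :
    (List.ofFn (pad k y)).take y.length = y := by
  apply List.ext_getElem
  · rw [List.length_take, List.length_ofFn]
    omega
  · intro n h1 h2
    rw [List.getElem_take, List.getElem_ofFn]
    unfold pad
    rw [List.getElem?_eq_getElem h2]
    rfl

/-- The arrangement of the first `a` components. -/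
def idr (k a : ℕ) : List (Option (Fin k)) := ((List.finRange k).take a).map some

theorem app_idr (x : Fin k → List T) (a : ℕ) : app x (idr k a) = (List.ofFn x).take a := by
  unfold app idr
  rw [List.map_map, List.ofFn_eq_map, List.map_take]
  rfl

theorem arr_idr (k a : ℕ) : Arr (idr k a) := by
  unfold idr
  refine ⟨?_, ?_⟩
  · rw [List.length_map, List.length_take, List.length_finRange]
    exact min_le_right _ _
  · rw [List.filterMap_map]
    have h : (id ∘ some : Fin k → Option (Fin k)) = some := rfl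
    rw [h, List.filterMap_some]
    exact (List.nodup_finRange k).sublist (List.take_sublist _ _)

theorem pad_app (x : Fin k → List T) (ρ : List (Option (Fin k))) (t : Fin k) :
    pad k (app x ρ) t = ((ρ[t.val]?).join).elim [] x := by
  unfold pad app
  rw [List.getElem?_map]
  cases ρ[t.val]? with
  | none => rfl
  | some o => cases o <;> rfl

/-! ### The trivial cut -/

/-- The trivial cut. -/
def cut0 (r : ℕ) (x : Fin k → List T) : Fin k → Fin (r + 1) → List T :=
  fun l i => if i = 0 then x l else []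

theorem cut0_cut (r : ℕ) (x : Fin k → List T) : Cut x (cut0 r x) := by
  intro l
  rw [flat1]
  · exact if_pos rfl
  · intro i hi
    exact if_neg hi

/-- The pattern of an arrangement. -/
def pi0 (r : ℕ) (ρ : List (Option (Fin k))) : Fin k → Option (Fin k × Fin (r + 1)) :=
  fun t => ((ρ[t.val]?).join).map fun l => (l, 0)

theorem pi0_inj (r : ℕ) {ρ : List (Option (Fin k))} (h : Arr ρ) : Inj (pi0 r ρ) := by
  intro i j a hi hj
  unfold pi0 at hi hj
  rw [Option.map_eq_some_iff] at hi hj
  obtain ⟨l, hl, hla⟩ := hi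
  obtain ⟨l', hl', hla'⟩ := hj
  have e : l = l' := by
    rw [← hla'] at hla
    exact (Prod.mk.inj hla).1
  subst e
  rw [Option.join_eq_some_iff] at hl hl'
  exact Fin.ext (arr_inj h.2 hl hl')

theorem subT_cut0 (r : ℕ) (x : Fin k → List T) (ρ : List (Option (Fin k))) :
    subT (cut0 r x) (pi0 r ρ) = pad k (app x ρ) := by
  funext t
  rw [pad_app]
  unfold subT pi0
  cases (ρ[t.val]?).join with
  | none => rfl
  | some l =>
    show (if (0 : Fin (r + 1)) = 0 then x l else []) = x l
    exact if_pos rfl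

theorem meas_app (abs : G_ABS) (x : Fin k → List T) {ρ : List (Option (Fin k))} (h : Arr ρ) :
    meas (pad k (app x ρ)) ≤ meas x := by
  have h1 := (abs k 0 (fun l _ => (x l).length) (pi0 0 ρ) (pi0_inj 0 h)).1
  have h2 : meas (pad k (app x ρ)) =
      ∑ j, wt k ((pi0 0 ρ j).elim 0 fun a => (x a.1).length) := by
    unfold meas
    refine Finset.sum_congr rfl fun t _ => ?_
    rw [pad_app]
    unfold pi0
    cases (ρ[t.val]?).join <;> rfl
  rw [h2]
  refine h1.trans (le_of_eq ?_)
  unfold meas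
  refine Finset.sum_congr rfl fun l _ => ?_
  rw [Fin.sum_univ_one]

theorem inf_cut0 {r : ℕ} {x x' : Fin k → List T} {D : Fin k → Fin (r + 1) → List T}
    (hD : Cut x' D) (h : infD (cut0 r x) = infD D) : D = cut0 r x' := by
  have h1 : ∀ l i, i ≠ 0 → D l i = [] := by
    intro l i hi
    have h2 := congrFun (congrFun h l) i
    unfold infD at h2
    have h3 := (Prod.mk.inj h2).1
    unfold cut0 at h3
    rw [if_neg hi] at h3
    have h4 : (D l i).length = 0 := by
      simp only [List.length_nil] at h3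
      omega
    exact List.length_eq_zero_iff.1 h4
  funext l i
  unfold cut0
  split_ifs with hi
  · subst hi
    rw [← hD l, flat1 _ (h1 l)]
  · exact h1 l i hi

/-! ### The map -/

section

variable {N : Type} (S : N → Set (List (List T)))

/-- The value of a tuple. -/
def mu (k : ℕ) (x : Fin k → List T) : Set (Fin (k + 1) × N) × Set (Fin k × Fin k) :=
  ({p | (List.ofFn x).take p.1 ∈ S p.2}, {p | x p.1 = x p.2})

theorem mu_take {x x' : Fin k → List T} (h : mu S k x = mu S k x') {a : ℕ} (ha : a ≤ k) (A : N) :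
    (List.ofFn x).take a ∈ S A ↔ (List.ofFn x').take a ∈ S A := by
  have h1 := congrArg (fun p => (⟨a, Nat.lt_succ_of_le ha⟩, A) ∈ p.1) h
  exact iff_of_eq h1

theorem mu_eq {x x' : Fin k → List T} (h : mu S k x = mu S k x') (i j : Fin k) :
    x i = x j ↔ x' i = x' j :=
  iff_of_eq (congrArg (fun p => (i, j) ∈ p.2) h)

theorem mu_pad {y y' : List (List T)} (h : mu S k (pad k y) = mu S k (pad k y'))
    (hy : y.length ≤ k) (hl : y.length = y'.length) (A : N) : y ∈ S A ↔ y' ∈ S A := by
  have h1 := mu_take S h hy A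
  rw [take_pad hy] at h1
  rw [h1, hl, take_pad (hl ▸ hy)]

variable {S}

/-- What one knows about a partner of a cut. -/
theorem partner {X : Type} {r : ℕ} {μ : (Fin k → List T) → X} {x x' : Fin k → List T}
    (hd : dat r μ x ⊆ dat r μ x') {D : Fin k → Fin (r + 1) → List T} (hD : Cut x D) :
    ∃ D', Cut x' D' ∧ infD D = infD D' ∧ ∀ π, Inj π → meas (subT D π) < meas x →
      meas (subT D' π) < meas x' ∧ μ (subT D π) = μ (subT D' π) := by
  obtain ⟨D', hD', h⟩ := hd ⟨D, hD, rfl⟩
  refine ⟨D', hD', (Prod.mk.inj h).1, fun π hπ hm => ?_⟩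
  have h1 := congrFun (Prod.mk.inj h).2 π
  unfold val at h1
  rw [if_pos ⟨hπ, hm⟩] at h1
  split_ifs at h1 with h2
  exact ⟨h2.2, Option.some_inj.1 h1⟩

theorem nil_tr {X : Type} {r : ℕ} {μ : (Fin k → List T) → X} {x x' : Fin k → List T}
    (hd : dat r μ x ⊆ dat r μ x') {i : Fin k} (h : x i = []) : x' i = [] := by
  obtain ⟨D', hD', h1, -⟩ := partner hd (cut0_cut r x)
  have h2 := inf_cut0 hD' h1
  subst h2
  have h3 := congrFun (congrFun h1 i) 0
  unfold infD cut0 at h3
  rw [if_pos rfl, if_pos rfl] at h3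
  have h4 := (Prod.mk.inj h3).1
  rw [h] at h4
  simp only [List.length_nil] at h4
  exact List.length_eq_zero_iff.1 (by omega)

theorem wt_lt (hk : 0 < k) (n : ℕ) : wt k n < wt k (n + 1) := by
  unfold wt Pool.Agent.Helper65.LinSpace.ifz
  rw [Nat.mul_succ]
  split_ifs <;> omega

theorem eq_tr {r : ℕ} {x x' : Fin k → List T}
    (hd : dat (r + 1) (mu S k) x ⊆ dat (r + 1) (mu S k) x') {i j : Fin k} (h : x i = x j) :
    x' i = x' j := by
  classical
  by_cases hij : i = j
  · rw [hij]
  by_cases he : x i = []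
  · rw [nil_tr hd he, nil_tr hd (h ▸ he)]
  obtain ⟨a, u, hau⟩ := List.exists_cons_of_ne_nil he
  have hk : 0 < k := Nat.lt_of_le_of_lt (Nat.zero_le _) i.2
  let D : Fin k → Fin (r + 1 + 1) → List T := fun l m =>
    if l = i ∨ l = j then (if m = 0 then [a] else if m = 1 then u else [])
    else if m = 0 then x l else []
  have h10 : (1 : Fin (r + 1 + 1)) ≠ 0 := by
    intro h0
    have := congrArg Fin.val h0
    simp at this
  have hD1 : ∀ l, l = i ∨ l = j → D l 0 = [a] ∧ D l 1 = u ∧ ∀ m, m ≠ 0 → m ≠ 1 → D l m = [] := by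
    intro l hl
    refine ⟨?_, ?_, fun m h0 h1 => ?_⟩
    · show (if l = i ∨ l = j then _ else _) = _
      rw [if_pos hl, if_pos rfl]
    · show (if l = i ∨ l = j then _ else _) = _
      rw [if_pos hl, if_neg h10, if_pos rfl]
    · show (if l = i ∨ l = j then _ else _) = _
      rw [if_pos hl, if_neg h0, if_neg h1]
  have hD2 : ∀ l, ¬ (l = i ∨ l = j) → D l = cut0 (r + 1) x l := by
    intro l hl
    funext m
    show (if l = i ∨ l = j then _ else _) = _
    rw [if_neg hl]
    rfl
  have hxl : ∀ l, l = i ∨ l = j → x l = a :: u := by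
    rintro l (rfl | rfl)
    · exact hau
    · rw [← h, hau]
  have hD : Cut x D := by
    intro l
    by_cases hl : l = i ∨ l = j
    · obtain ⟨h1, h2, h3⟩ := hD1 l hl
      rw [flat2 _ h3, h1, h2, hxl l hl]
      rfl
    · rw [hD2 l hl]
      exact cut0_cut (r + 1) x l
  let π : Fin k → Option (Fin k × Fin (r + 1 + 1)) := fun t =>
    if t = i ∨ t = j then some (t, 1) else none
  have hπ : Inj π := by
    intro s t b hs ht
    have hs' : (if s = i ∨ s = j then some (s, (1 : Fin (r + 1 + 1))) else none) = some b := hs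
    have ht' : (if t = i ∨ t = j then some (t, (1 : Fin (r + 1 + 1))) else none) = some b := ht
    split_ifs at hs' with h1
    split_ifs at ht' with h2
    have h3 := (Prod.mk.inj ((Option.some_inj.1 hs').trans (Option.some_inj.1 ht').symm)).1
    exact h3
  have hsub : ∀ D' : Fin k → Fin (r + 1 + 1) → List T, ∀ t, t = i ∨ t = j →
      subT D' π t = D' t 1 := by
    intro D' t ht
    unfold subT
    have : π t = some (t, 1) := if_pos ht
    rw [this]
    rfl
  have hmeas : meas (subT D π) < meas x := by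
    unfold meas
    refine Finset.sum_lt_sum (fun t _ => ?_) ⟨i, Finset.mem_univ i, ?_⟩
    · by_cases ht : t = i ∨ t = j
      · rw [hsub D t ht, (hD1 t ht).2.1, hxl t ht]
        exact wt_mono k (Nat.le_succ _)
      · have : subT D π t = [] := by
          unfold subT
          have h1 : π t = none := if_neg ht
          rw [h1]
          rfl
        rw [this]
        exact wt_mono k (Nat.zero_le _)
    · rw [hsub D i (Or.inl rfl), (hD1 i (Or.inl rfl)).2.1, hxl i (Or.inl rfl)]
      exact wt_lt hk _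
  obtain ⟨D', hD', hinf, hval⟩ := partner hd hD
  obtain ⟨-, hmu⟩ := hval π hπ hmeas
  have h1 : subT D' π i = subT D' π j := by
    rw [← mu_eq S hmu, hsub D i (Or.inl rfl), hsub D j (Or.inr rfl), (hD1 i (Or.inl rfl)).2.1,
      (hD1 j (Or.inr rfl)).2.1]
  rw [hsub D' i (Or.inl rfl), hsub D' j (Or.inr rfl)] at h1
  have h2 : ∀ l, l = i ∨ l = j → x' l = a :: D' l 1 := by
    intro l hl
    have h3 : ∀ m, m ≠ 0 → m ≠ 1 → D' l m = [] := by
      intro m m0 m1
      have h4 := congrFun (congrFun hinf l) m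
      unfold infD at h4
      have h5 := (Prod.mk.inj h4).1
      rw [(hD1 l hl).2.2 m m0 m1] at h5
      simp only [List.length_nil] at h5
      exact List.length_eq_zero_iff.1 (by omega)
    have h4 : D' l 0 = [a] := by
      have h5 := congrFun (congrFun hinf l) 0
      unfold infD at h5
      obtain ⟨h6, h7⟩ := Prod.mk.inj h5
      rw [(hD1 l hl).1] at h6 h7
      simp only [List.length_singleton] at h6
      have h8 : (D' l 0).length = 1 := by omega
      obtain ⟨b, hb⟩ := List.length_eq_one_iff.1 h8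
      rw [hb] at h7 ⊢
      have h9 : some a = some b := h7
      rw [Option.some_inj.1 h9]
    rw [← hD' l, flat2 _ h3, h4]
    rfl
  rw [h2 i (Or.inl rfl), h2 j (Or.inr rfl), h1]

theorem app_eq_tr {r : ℕ} {x x' : Fin k → List T}
    (hd : dat (r + 1) (mu S k) x ⊆ dat (r + 1) (mu S k) x') :
    ∀ {ρ ρ' : List (Option (Fin k))}, app x ρ = app x ρ' → app x' ρ = app x' ρ' := by
  intro ρ
  induction ρ with
  | nil =>
    intro ρ' h
    cases ρ' with
    | nil => rfl
    | cons o ρ' => exact (List.cons_ne_nil _ _ h.symm).elim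
  | cons o ρ ih =>
    intro ρ' h
    cases ρ' with
    | nil => exact (List.cons_ne_nil _ _ h).elim
    | cons o' ρ' =>
      have h1 : o.elim [] x = o'.elim [] x := (List.cons.inj h).1
      have h2 : app x ρ = app x ρ' := (List.cons.inj h).2
      have h3 : o.elim [] x' = o'.elim [] x' := by
        cases o with
        | none =>
          cases o' with
          | none => rfl
          | some j => exact (nil_tr hd (i := j) h1.symm).symm
        | some i =>
          cases o' with
          | none => exact nil_tr hd (i := i) h1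
          | some j => exact eq_tr hd (i := i) (j := j) h1
      show o.elim [] x' :: app x' ρ = o'.elim [] x' :: app x' ρ'
      rw [h3, ih h2]

theorem length_app (x : Fin k → List T) (ρ : List (Option (Fin k))) :
    (app x ρ).length = ρ.length := by
  unfold app
  rw [List.length_map]

theorem app_tr {r : ℕ} {x x' : Fin k → List T} (hd : dat r (mu S k) x ⊆ dat r (mu S k) x')
    {ρ : List (Option (Fin k))} (hρ : Arr ρ) (hm : meas (pad k (app x ρ)) < meas x) (A : N) :
    app x ρ ∈ S A ↔ app x' ρ ∈ S A := by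
  obtain ⟨D', hD', h1, h2⟩ := partner hd (cut0_cut r x)
  have h3 := inf_cut0 hD' h1
  subst h3
  have h4 := (h2 (pi0 r ρ) (pi0_inj r hρ) (by rw [subT_cut0]; exact hm)).2
  rw [subT_cut0, subT_cut0] at h4
  exact mu_pad S h4 (by rw [length_app]; exact hρ.1) (by rw [length_app, length_app]) A

end

/-! ### Finite closed sets -/

/-- The factors of a list of words. -/
def facs (ws : List (List T)) : Set (List T) := {u | ∃ w ∈ ws, u <:+: w}

theorem facs_finite (ws : List (List T)) : (facs ws).Finite := by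
  have : facs ws ⊆ {u | u ∈ ws.flatMap fun w => w.tails.flatMap List.inits} := by
    rintro u ⟨w, hw, a, b, hab⟩
    show u ∈ ws.flatMap fun w => w.tails.flatMap List.inits
    rw [List.mem_flatMap]
    refine ⟨w, hw, ?_⟩
    rw [List.mem_flatMap]
    refine ⟨u ++ b, ?_, ?_⟩
    · rw [List.mem_tails]
      exact ⟨a, by rw [← hab, List.append_assoc]⟩
    · rw [List.mem_inits]
      exact ⟨b, rfl⟩
  exact (List.finite_toSet _).subset this

/-- The tuples with at most `k` components which are factors. -/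
def tup (k : ℕ) (ws : List (List T)) : Set (List (List T)) :=
  {y | y.length ≤ k ∧ ∀ u ∈ y, u ∈ facs ws}

theorem tup_finite (k : ℕ) (ws : List (List T)) : (tup k ws).Finite := by
  have hf : Finite (facs ws) := (facs_finite ws).to_subtype
  have h1 : ({l : List (facs ws) | l.length ≤ k}).Finite := List.finite_length_le _ _
  refine (h1.image (List.map Subtype.val)).subset ?_
  rintro y ⟨hy, hu⟩
  refine ⟨y.attachWith (fun u => u ∈ facs ws) hu, ?_, ?_⟩
  · show (y.attachWith (fun u => u ∈ facs ws) hu).length ≤ k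
    rw [List.length_attachWith]
    exact hy
  · rw [List.attachWith_map_subtype_val]

theorem infix_subst {ν : ℕ → List T} {u : List (T ⊕ ℕ)} {v : ℕ} (h : Sum.inr v ∈ u) :
    ν v <:+: subst ν u := by
  obtain ⟨s, t, rfl⟩ := List.append_of_mem h
  refine ⟨subst ν s, subst ν t, ?_⟩
  unfold subst
  rw [List.map_append, List.map_cons, List.flatten_append, List.flatten_cons, List.append_assoc]
  rfl

theorem lit_tup {N : Type} {c : Clause T N} (hc : c.Linear k) {ws : List (List T)} {ν : ℕ → List T}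
    (h : c.lhs.map (subst ν) ∈ tup k ws) {p : N × List ℕ} (hp : p ∈ c.pos ++ c.neg) :
    p.2.map ν ∈ tup k ws := by
  obtain ⟨h1, -, h3⟩ := hc.2.2 p hp
  refine ⟨by rw [List.length_map]; exact h1, fun u hu => ?_⟩
  rw [List.mem_map] at hu
  obtain ⟨v, hv, rfl⟩ := hu
  obtain ⟨l, hl, hvl⟩ := List.mem_flatten.1 (h3 v hv)
  obtain ⟨w, hw, hlw⟩ := h.2 (subst ν l) (List.mem_map.2 ⟨l, hl, rfl⟩)
  exact ⟨w, hw, (infix_subst hvl).trans hlw⟩

section

variable {G : Grammar T}

theorem sol_of {S : G.N → Set (List (List T))} (hG : G.Linear k)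
    (hS : ∀ M : Set (List (List T)), M.Finite → G.Closed M → ∀ S' : G.N → Set (List (List T)),
      (∀ A, ∀ x ∈ M, x ∈ S' A ↔ x ∈ G.rhs S' S' A) ↔ ∀ A, ∀ x ∈ M, x ∈ S' A ↔ x ∈ S A)
    {y : List (List T)} (hy : y.length ≤ k) (A : G.N) : y ∈ S A ↔ y ∈ G.rhs S S A := by
  refine ((hS (tup k y) (tup_finite k y) ?_ S).2 fun _ _ _ => Iff.rfl) A y
    ⟨hy, fun u hu => ⟨u, hu, List.infix_refl u⟩⟩
  intro A c hc ν h p hp
  exact lit_tup (hG A c hc) h hp

/-- Literals of an instance. -/
theorem lit_or (mat : G_MATCH) (hG : G.Linear k) {X : Type} {r : ℕ} {μ : (Fin k → List T) → X}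
    (hr : ∀ A, ∀ c ∈ G.rules A, ∀ u ∈ c.lhs, u.length ≤ r) {A : G.N} {c : Clause T G.N}
    (hc : c ∈ G.rules A) (x : Fin k → List T) {ρ : List (Option (Fin k))} (hρ : Arr ρ)
    {ν : ℕ → List T} (h : c.lhs.map (subst ν) = app x ρ) {p : G.N × List ℕ}
    (hp : p ∈ c.pos ++ c.neg) :
    (∃ ρ', Arr ρ' ∧ p.2.map ν = app x ρ') ∨ meas (pad k (p.2.map ν)) < meas x := by
  -- one may take any `μ`; use a constant one, so that the partner may be chosen equal
  obtain ⟨ν', h1, h2⟩ := mat T G.N X k r c μ x x (hG A c hc) (hr A c hc) subset_rfl ρ hρ ν h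
  rcases h2 p hp with ⟨ρ', h3, h4, -⟩ | ⟨h3, -⟩
  · exact Or.inl ⟨ρ', h3, h4⟩
  · exact Or.inr h3

theorem lit_le (abs : G_ABS) (mat : G_MATCH) (hG : G.Linear k) {r : ℕ}
    (hr : ∀ A, ∀ c ∈ G.rules A, ∀ u ∈ c.lhs, u.length ≤ r) {A : G.N} {c : Clause T G.N}
    (hc : c ∈ G.rules A) {ν : ℕ → List T} {p : G.N × List ℕ} (hp : p ∈ c.pos ++ c.neg) :
    meas (pad k (p.2.map ν)) ≤ meas (pad k (c.lhs.map (subst ν))) := by
  have hl : (c.lhs.map (subst ν)).length ≤ k := by
    rw [List.length_map]
    exact (hG A c hc).1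
  have h1 : c.lhs.map (subst ν) =
      app (pad k (c.lhs.map (subst ν))) (idr k (c.lhs.map (subst ν)).length) := by
    rw [app_idr, take_pad hl]
  rcases lit_or (X := Unit) (μ := fun _ => ()) mat hG hr hc _ (arr_idr k _) h1 hp with
    ⟨ρ', h2, h3⟩ | h2
  · rw [h3]
    exact meas_app abs _ h2
  · exact h2.le

end

/-! ### The main step -/

section

variable {G : Grammar T} {S : G.N → Set (List (List T))}

/-- The modified solution. -/
def modi (S : G.N → Set (List (List T))) (x x' : Fin k → List T) (A : G.N) :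
    Set (List (List T)) :=
  {y | (∃ ρ, Arr ρ ∧ y = app x ρ ∧ app x' ρ ∈ S A) ∨ ((¬ ∃ ρ, Arr ρ ∧ y = app x ρ) ∧ y ∈ S A)}

theorem modi_app {r : ℕ} {x x' : Fin k → List T}
    (hd : dat (r + 1) (mu S k) x ⊆ dat (r + 1) (mu S k) x') {ρ : List (Option (Fin k))}
    (hρ : Arr ρ) (A : G.N) : app x ρ ∈ modi S x x' A ↔ app x' ρ ∈ S A := by
  constructor
  · rintro (⟨ρ', _, h2, h3⟩ | ⟨h, _⟩)
    · rw [app_eq_tr hd h2]
      exact h3
    · exact (h ⟨ρ, hρ, rfl⟩).elim
  · intro h
    exact Or.inl ⟨ρ, hρ, rfl, h⟩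

theorem modi_small {r : ℕ} {x x' : Fin k → List T}
    (hd : dat (r + 1) (mu S k) x ⊆ dat (r + 1) (mu S k) x') {y : List (List T)}
    (hy : meas (pad k y) < meas x) (A : G.N) : y ∈ modi S x x' A ↔ y ∈ S A := by
  by_cases h : ∃ ρ, Arr ρ ∧ y = app x ρ
  · obtain ⟨ρ, hρ, rfl⟩ := h
    rw [modi_app hd hρ, app_tr hd hρ hy]
  · constructor
    · rintro (⟨ρ, h1, h2, _⟩ | ⟨_, h1⟩)
      · exact (h ⟨ρ, h1, h2⟩).elim
      · exact h1
    · intro h1
      exact Or.inr ⟨h, h1⟩

theorem main (abs : G_ABS) (mat : G_MATCH) (hk : 0 < k) (hG : G.Linear k)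
    (hS : ∀ M : Set (List (List T)), M.Finite → G.Closed M → ∀ S' : G.N → Set (List (List T)),
      (∀ A, ∀ x ∈ M, x ∈ S' A ↔ x ∈ G.rhs S' S' A) ↔ ∀ A, ∀ x ∈ M, x ∈ S' A ↔ x ∈ S A)
    {r : ℕ} (hr : ∀ A, ∀ c ∈ G.rules A, ∀ u ∈ c.lhs, u.length ≤ r + 1) {x x' : Fin k → List T}
    (hd : dat (r + 1) (mu S k) x = dat (r + 1) (mu S k) x') {ρ : List (Option (Fin k))}
    (hρ : Arr ρ) (A : G.N) : app x ρ ∈ S A ↔ app x' ρ ∈ S A := by
  have sol := fun (y : List (List T)) (hy : y.length ≤ k) (A : G.N) => sol_of hG hS hy A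
  let M : Set (List (List T)) := {y | y ∈ tup k (List.ofFn x) ∧
    (meas (pad k y) < meas x ∨ ∃ ρ, Arr ρ ∧ y = app x ρ)}
  have hMf : M.Finite := (tup_finite k (List.ofFn x)).subset fun y hy => hy.1
  have hMc : G.Closed M := by
    intro A c hc ν h p hp
    refine ⟨lit_tup (hG A c hc) h.1 hp, ?_⟩
    rcases h.2 with h1 | ⟨ρ, h1, h2⟩
    · exact Or.inl ((lit_le abs mat hG hr hc hp).trans_lt h1)
    · exact (lit_or (X := Unit) (μ := fun _ => ()) mat hG hr hc x h1 h2 hp).symm
  have hO : ∀ ρ : List (Option (Fin k)), Arr ρ → app x ρ ∈ M := by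
    intro ρ h
    refine ⟨⟨by rw [length_app]; exact h.1, fun u hu => ?_⟩, Or.inr ⟨ρ, h, rfl⟩⟩
    unfold app at hu
    rw [List.mem_map] at hu
    obtain ⟨o, -, rfl⟩ := hu
    cases o with
    | none => exact ⟨x ⟨0, hk⟩, List.mem_ofFn.2 ⟨⟨0, hk⟩, rfl⟩, List.nil_infix⟩
    | some l => exact ⟨x l, List.mem_ofFn.2 ⟨l, rfl⟩, List.infix_refl _⟩
  have key : ∀ A, ∀ y ∈ M, y ∈ modi S x x' A ↔ y ∈ G.rhs (modi S x x') (modi S x x') A := by
    intro A y hy
    by_cases hyO : ∃ ρ, Arr ρ ∧ y = app x ρ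
    · obtain ⟨ρ, h1, rfl⟩ := hyO
      rw [modi_app hd.le h1, sol _ (by rw [length_app]; exact h1.1)]
      constructor
      · rintro ⟨c, hc, ν', h2, h3, h4⟩
        obtain ⟨ν, h5, h6⟩ := mat T G.N _ k (r + 1) c (mu S k) x' x (hG A c hc) (hr A c hc) hd.ge ρ
          h1 ν' h2
        have h7 : ∀ p ∈ c.pos ++ c.neg, (p.2.map ν ∈ modi S x x' p.1 ↔ p.2.map ν' ∈ S p.1) := by
          intro p hp
          rcases h6 p hp with ⟨ρ', h7, h8, h9⟩ | ⟨h7, h8, h9⟩
          · rw [h8, h9, modi_app hd.le h7]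
          · rw [modi_small hd.le h8]
            refine (mu_pad S h9 ?_ (by rw [List.length_map, List.length_map]) p.1).symm
            rw [List.length_map]
            exact ((hG A c hc).2.2 p hp).1
        exact ⟨c, hc, ν, h5, fun p hp => (h7 p (List.mem_append_left _ hp)).2 (h3 p hp),
          fun p hp h8 => h4 p hp ((h7 p (List.mem_append_right _ hp)).1 h8)⟩
      · rintro ⟨c, hc, ν, h2, h3, h4⟩
        obtain ⟨ν', h5, h6⟩ := mat T G.N _ k (r + 1) c (mu S k) x x' (hG A c hc) (hr A c hc) hd.le ρ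
          h1 ν h2
        have h7 : ∀ p ∈ c.pos ++ c.neg, (p.2.map ν ∈ modi S x x' p.1 ↔ p.2.map ν' ∈ S p.1) := by
          intro p hp
          rcases h6 p hp with ⟨ρ', h7, h8, h9⟩ | ⟨h7, h8, h9⟩
          · rw [h8, h9, modi_app hd.le h7]
          · rw [modi_small hd.le h7]
            refine mu_pad S h9 ?_ (by rw [List.length_map, List.length_map]) p.1
            rw [List.length_map]
            exact ((hG A c hc).2.2 p hp).1
        exact ⟨c, hc, ν', h5, fun p hp => (h7 p (List.mem_append_left _ hp)).1 (h3 p hp),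
          fun p hp h8 => h4 p hp ((h7 p (List.mem_append_right _ hp)).2 h8)⟩
    · have hym : meas (pad k y) < meas x := hy.2.resolve_right hyO
      rw [modi_small hd.le hym, sol _ hy.1.1]
      constructor
      · rintro ⟨c, hc, ν, h2, h3, h4⟩
        have h7 : ∀ p ∈ c.pos ++ c.neg, (p.2.map ν ∈ modi S x x' p.1 ↔ p.2.map ν ∈ S p.1) := by
          intro p hp
          refine modi_small hd.le (lt_of_le_of_lt (lit_le abs mat hG hr hc hp) ?_) p.1
          rw [h2]
          exact hym
        exact ⟨c, hc, ν, h2, fun p hp => (h7 p (List.mem_append_left _ hp)).2 (h3 p hp),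
          fun p hp h8 => h4 p hp ((h7 p (List.mem_append_right _ hp)).1 h8)⟩
      · rintro ⟨c, hc, ν, h2, h3, h4⟩
        have h7 : ∀ p ∈ c.pos ++ c.neg, (p.2.map ν ∈ modi S x x' p.1 ↔ p.2.map ν ∈ S p.1) := by
          intro p hp
          refine modi_small hd.le (lt_of_le_of_lt (lit_le abs mat hG hr hc hp) ?_) p.1
          rw [h2]
          exact hym
        exact ⟨c, hc, ν, h2, fun p hp => (h7 p (List.mem_append_left _ hp)).1 (h3 p hp),
          fun p hp h8 => h4 p hp ((h7 p (List.mem_append_right _ hp)).2 h8)⟩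
  have h1 := (hS M hMf hMc (modi S x x')).1 key A (app x ρ) (hO ρ hρ)
  rw [modi_app hd.le hρ] at h1
  exact h1.symm

end

theorem exists_bound (G : Grammar T) :
    ∃ r : ℕ, ∀ A, ∀ c ∈ G.rules A, ∀ u ∈ c.lhs, u.length ≤ r := by
  have := G.finN
  have h1 : ∀ A, ∃ r : ℕ, ∀ c ∈ G.rules A, ∀ u ∈ c.lhs, u.length ≤ r := by
    intro A
    refine ⟨(((G.rules A).flatMap fun c => c.lhs).map List.length).sum, fun c hc u hu => ?_⟩
    refine List.single_le_sum (fun _ _ => Nat.zero_le _) _ ?_
    rw [List.mem_map]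
    exact ⟨u, List.mem_flatMap.2 ⟨c, hc, hu⟩, rfl⟩
  choose f hf using h1
  obtain ⟨r, hr⟩ := (Set.finite_range f).bddAbove
  exact ⟨r, fun A c hc u hu => (hf A c hc u hu).trans (hr ⟨A, rfl⟩)⟩

theorem thm (abs : G_ABS) (mat : G_MATCH) : Pool.Agent.Helper31.RG.G_SU := by
  classical
  rintro T G k K hk hG ⟨S, hK, hS⟩
  obtain ⟨r, hr⟩ := exists_bound G
  have hr' : ∀ A, ∀ c ∈ G.rules A, ∀ u ∈ c.lhs, u.length ≤ r + 1 :=
    fun A c hc u hu => (hr A c hc u hu).trans (Nat.le_succ r)
  have := G.finN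
  refine ⟨r + 1, Set (Fin (k + 1) × G.N) × Set (Fin k × Fin k), inferInstance, mu S k,
    fun d => if h : ∃ x, dat (r + 1) (mu S k) x = d then mu S k h.choose else (∅, ∅),
    {p | ((⟨1, by omega⟩ : Fin (k + 1)), G.start) ∈ p.1}, fun x => ?_, fun w => ?_⟩
  · have hex : ∃ y, dat (r + 1) (mu S k) y = dat (r + 1) (mu S k) x := ⟨x, rfl⟩
    beta_reduce
    rw [dif_pos hex]
    have hd := hex.choose_spec
    generalize hex.choose = y at hd
    refine Prod.ext ?_ ?_
    · ext ⟨a, A⟩
      show (List.ofFn x).take a ∈ S A ↔ (List.ofFn y).take a ∈ S A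
      rw [← app_idr, ← app_idr]
      exact main abs mat hk hG hS hr' hd.symm (arr_idr k a) A
    · ext ⟨i, j⟩
      exact ⟨fun h => eq_tr hd.ge h, fun h => eq_tr hd.le h⟩
  · rw [← hK]
    show [w] ∈ S G.start ↔
      (List.ofFn fun i : Fin k => if i.val = 0 then w else []).take 1 ∈ S G.start
    have h1 : (List.ofFn fun i : Fin k => if i.val = 0 then w else []).take 1 = [w] := by
      obtain ⟨k, rfl⟩ : ∃ k', k = k' + 1 := ⟨k - 1, by omega⟩
      rw [List.ofFn_succ, List.take_succ_cons, List.take_zero]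
      rfl
    rw [h1]

end Pool.Agent.Helper56.RG.PkSU
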